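import Pool.Agent.H82.LD.M2

/-!
# Few exceptional residues at the levels of distribution up to `4/7`

Let `1/2 ≤ θ < 4/7`. For smooth squarefree moduli up to `x^θ` the sum of the absolute values of the errors is at most
`x/(log x)^U` for all but `O((log x)^B + x^(9θ-5+ε))` of the residues `a ≤ x`; for the squarefree moduli with a divisor in
`[x^σ, x^(4-7θ-δ)]` the number of exceptional residues is `O((log x)^B + x^(2θ-1-σ+δ))`. And for ARBITRARY sets `A` of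
residues with `|A| ≤ R`, `R ≥ x^(2θ-1-σ+δ)`, the maximum over the residues in `A` may be put inside the sum over the moduli,
outside a set of pairs (modulus, residue) of weight `O((log x)^B + R x^(-η))`.

Method. The correlation of the divisor functions attached to a fixed residue `a'` and to the residues `a` of a set `A` is,
by Poisson summation, a sum of Kloosterman fractions `c_a(d) c'(d') e(j k_a d⁻¹/d')` over `a`, `j`, `d`, `d'`, with arbitrary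
coefficients `c_a(d)`, and `k_a` is injective. With `d = r s` and Cauchy's inequality over `(r, d')`, with the sum over
the triples `(s, a, j)` inside, the diagonal terms are those with `j₁ k_{a₁} s₂ = j₂ k_{a₂} s₁`; so a set of `R` residues
is as good as a divisor `s` which is larger by the factor `R`. The other terms are bounded by Weil's bound; these give the
condition `θ < 4/7`. The correlations are used in the dual large sieve inequality, where for every `a'` only the sum over `a`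
of the correlations is needed.
-/

set_option autoImplicit false

namespace Pool.Agent.Results.MP_00e23e_nt.FewExceptionalResidues

open Finset

/-- `π(x; d, l)`: the number of primes `p ≤ x` with `p ≡ l (mod d)` -/
noncomputable def primesAP (x d l : ℕ) : ℕ :=
  ((Icc 1 x).filter (fun p : ℕ => p.Prime ∧ p ≡ l [MOD d])).card

/-- `E(x; d, l) = π(x; d, l) - li(x)/φ(d)`, `li(x) = ∫_2^x dt/log t` -/
noncomputable def E (x d l : ℕ) : ℝ :=
  (primesAP x d l : ℝ) - (∫ t in (2 : ℝ)..x, 1 / Real.log t) / (Nat.totient d : ℝ)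

open Classical in
/-- the squarefree `d ≤ x^θ` without prime factors greater than `x^y` -/
noncomputable def smooth (x : ℕ) (θ y : ℝ) : Finset ℕ :=
  (Icc 1 ⌊(x : ℝ) ^ θ⌋₊).filter (fun d : ℕ => Squarefree d ∧
    ∀ p : ℕ, p.Prime → p ∣ d → (p : ℝ) ≤ (x : ℝ) ^ y)

open Classical in
/-- the squarefree `d ≤ x^θ` that are at most `x^(51/100)` or have a divisor `s` with
`x^σ ≤ s ≤ x^(4-7θ-δ)` -/
noncomputable def mods (x : ℕ) (θ σ δ : ℝ) : Finset ℕ :=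
  (Icc 1 ⌊(x : ℝ) ^ θ⌋₊).filter (fun d : ℕ => Squarefree d ∧
    ((d : ℝ) ≤ (x : ℝ) ^ (51 / 100 : ℝ) ∨ ∃ s : ℕ, s ∣ d ∧ (x : ℝ) ^ σ ≤ s ∧
      (s : ℝ) ≤ (x : ℝ) ^ (4 - 7 * θ - δ)))

open Classical in
/-- the residues `a ≤ x` for which the sum of `|E(x; d, a)|` over the moduli `d` of `D` coprime to `a` exceeds
`x/(log x)^U` -/
noncomputable def exceptions (x U : ℕ) (D : Finset ℕ) : Finset ℕ :=
  (Icc 1 x).filter (fun a : ℕ => (x : ℝ) / Real.log x ^ U < ∑ d ∈ D.filter (fun d => Nat.Coprime a d), |E x d a|)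

theorem mem_mods {x : ℕ} {θ σ δ : ℝ} {d : ℕ} : d ∈ mods x θ σ δ ↔
    d ∈ Icc 1 ⌊(x : ℝ) ^ θ⌋₊ ∧ Squarefree d ∧
    ((d : ℝ) ≤ (x : ℝ) ^ (51 / 100 : ℝ) ∨ ∃ s : ℕ, s ∣ d ∧ (x : ℝ) ^ σ ≤ s ∧
      (s : ℝ) ≤ (x : ℝ) ^ (4 - 7 * θ - δ)) := by
  classical
  unfold mods
  rw [mem_filter]

theorem sub_mo (x : ℕ) (θ σ δ : ℝ) : mods x θ σ δ ⊆
    Pool.Agent.W109.C.mo (Pool.Agent.H82.LD.PG σ (4 - 7 * θ - δ)) x θ := by
  intro d hd
  obtain ⟨g1, g2, g3⟩ := mem_mods.1 hd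
  refine Pool.Agent.W109.C.mem_mo.2 ⟨g1, ?_⟩
  rcases g3 with g3 | g3
  · exact Or.inl g3
  · exact Or.inr ⟨g2, g3⟩

theorem card_exceptions (θ σ δ : ℝ) (h1 : 1 / 2 ≤ θ) (h2 : θ < 4 / 7) (h3 : 0 < δ) (U : ℕ) :
    ∃ (B : ℕ) (C : ℝ), 0 < C ∧ ∀ x : ℕ, 3 ≤ x →
      ((exceptions x U (mods x θ σ δ)).card : ℝ) ≤
        C * (Real.log x ^ B + (x : ℝ) ^ (2 * θ - 1 - σ + δ)) := by
  classical
  obtain ⟨B, C, hC, h⟩ := Pool.Agent.H82.LD.card_exc θ (2 * θ - 1 - σ + δ) (by linarith)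
    (Pool.Agent.H82.LD.PG σ (4 - 7 * θ - δ))
    (Pool.Agent.H82.LD.hcorr_PG θ σ δ h1 (by linarith) h3) U
  refine ⟨B, C, hC, fun x hx => h x hx _ ?_ ?_⟩
  · unfold exceptions
    exact filter_subset _ _
  · intro a ha
    unfold exceptions at ha
    rw [mem_filter] at ha
    refine lt_of_lt_of_le ha.2 ?_
    refine sum_le_sum_of_subset_of_nonneg ?_ fun _ _ _ => abs_nonneg _
    intro d hd
    rw [mem_filter] at hd ⊢
    exact ⟨sub_mo x θ σ δ hd.1, hd.2⟩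

theorem smooth_sub (x : ℕ) (hx : 3 ≤ x) (θ σ δ y : ℝ) (hσ0 : 0 ≤ σ) (hσ : σ ≤ 51 / 100)
    (hy : σ + y ≤ 4 - 7 * θ - δ) : smooth x θ y ⊆ mods x θ σ δ := by
  classical
  intro d hd
  unfold smooth at hd
  rw [mem_filter, mem_Icc] at hd
  obtain ⟨⟨g1, g2⟩, g3, g4⟩ := hd
  have hx1 : (1 : ℝ) ≤ x := by
    have : 1 ≤ x := by omega
    exact_mod_cast this
  refine mem_mods.2 ⟨mem_Icc.2 ⟨g1, g2⟩, g3, ?_⟩
  rcases Pool.Agent.H82.LD.smooth_PG σ y hσ hσ0 x d (by omega) g1 g3 g4 with h | h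
  · exact Or.inl h
  · obtain ⟨-, s, s1, s2, s3⟩ := h
    exact Or.inr ⟨s, s1, s2, s3.trans (Real.rpow_le_rpow_of_exponent_le hx1 hy)⟩

theorem exceptions_mono (x U : ℕ) {D D' : Finset ℕ} (h : D ⊆ D') :
    exceptions x U D ⊆ exceptions x U D' := by
  classical
  intro a ha
  unfold exceptions at ha ⊢
  rw [mem_filter] at ha ⊢
  refine ⟨ha.1, lt_of_lt_of_le ha.2 ?_⟩
  refine sum_le_sum_of_subset_of_nonneg ?_ fun _ _ _ => abs_nonneg _
  exact filter_subset_filter _ h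

theorem result (θ : ℝ) (h1 : 1 / 2 ≤ θ) (h2 : θ < 4 / 7) :
    -- smooth moduli: the number of exceptional residues
    (∀ ε : ℝ, 0 < ε → ∃ y : ℝ, 0 < y ∧ ∀ U : ℕ, ∃ (B : ℕ) (C : ℝ), 0 < C ∧ ∀ x : ℕ, 3 ≤ x →
      ((exceptions x U (smooth x θ y)).card : ℝ) ≤ C * (Real.log x ^ B + (x : ℝ) ^ (9 * θ - 5 + ε))) ∧
    -- moduli with a divisor of a given size: the number of exceptional residues
    (∀ σ δ : ℝ, 0 < δ → ∀ U : ℕ, ∃ (B : ℕ) (C : ℝ), 0 < C ∧ ∀ x : ℕ, 3 ≤ x →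
      ((exceptions x U (mods x θ σ δ)).card : ℝ) ≤
        C * (Real.log x ^ B + (x : ℝ) ^ (2 * θ - 1 - σ + δ))) ∧
    -- the maximum over the residues of an arbitrary set inside the sum
    (∀ σ δ : ℝ, 0 < δ → ∃ η : ℝ, 0 < η ∧ ∀ U : ℕ, ∃ (B : ℕ) (C : ℝ), 0 < C ∧ ∀ x : ℕ, 3 ≤ x →
      ∃ Z : Finset ℕ, ∑ d ∈ Z, 1 / (Nat.totient d : ℝ) ≤ C / Real.log x ^ U ∧
      ∀ A : Finset ℕ, A ⊆ Icc 1 x → ∀ R : ℝ, 1 ≤ R → (A.card : ℝ) ≤ R →
      (x : ℝ) ^ (2 * θ - 1 - σ + δ) ≤ R → ∃ X : ℕ → Finset ℕ,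
      (∀ d, X d ⊆ A) ∧
      ∑ d ∈ Icc 1 ⌊(x : ℝ) ^ θ⌋₊, ((X d).card : ℝ) / (Nat.totient d : ℝ) ≤
        C * (Real.log x ^ B + R * (x : ℝ) ^ (-η)) ∧
      (∀ d ∈ mods x θ σ δ, d ∉ Z → ∀ a ∈ A, a ∉ X d → Nat.Coprime a d →
        |E x d a| ≤ C * (x / (Nat.totient d * Real.log x ^ U))) ∧
      (∀ α : ℕ → ℕ, ∑ d ∈ (mods x θ σ δ).filter
        (fun d => α d ∈ A ∧ α d ∉ X d ∧ Nat.Coprime (α d) d), |E x d (α d)| ≤
          C * (x / Real.log x ^ U))) := by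
  classical
  refine ⟨?_, fun σ δ h3 U => card_exceptions θ σ δ h1 h2 h3 U, ?_⟩
  · intro ε hε
    obtain ⟨δ, hδ⟩ : ∃ δ : ℝ, δ = min (ε / 4) ((4 - 7 * θ) / 4) := ⟨_, rfl⟩
    have hδ0 : 0 < δ := by
      rw [hδ]
      exact lt_min (by positivity) (by linarith)
    have hδ1 : δ ≤ ε / 4 := by rw [hδ]; exact min_le_left _ _
    have hδ2 : δ ≤ (4 - 7 * θ) / 4 := by rw [hδ]; exact min_le_right _ _
    refine ⟨δ, hδ0, fun U => ?_⟩
    obtain ⟨B, C, hC, h⟩ := card_exceptions θ (4 - 7 * θ - 2 * δ) δ h1 h2 hδ0 U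
    refine ⟨B, C, hC, fun x hx => ?_⟩
    have hx1 : (1 : ℝ) ≤ x := by
      have : 1 ≤ x := by omega
      exact_mod_cast this
    have hsub := exceptions_mono x U (smooth_sub x hx θ (4 - 7 * θ - 2 * δ) δ δ (by linarith)
      (by linarith) (by linarith))
    have h4 : ((exceptions x U (smooth x θ δ)).card : ℝ) ≤
        (exceptions x U (mods x θ (4 - 7 * θ - 2 * δ) δ)).card := by
      exact_mod_cast card_le_card hsub
    refine h4.trans ((h x hx).trans ?_)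
    have h5 : (x : ℝ) ^ (2 * θ - 1 - (4 - 7 * θ - 2 * δ) + δ) ≤ (x : ℝ) ^ (9 * θ - 5 + ε) :=
      Real.rpow_le_rpow_of_exponent_le hx1 (by linarith)
    gcongr
  · intro σ δ h3
    obtain ⟨η, hη, h⟩ := Pool.Agent.H82.LD.main_liA θ (2 * θ - 1 - σ + δ) (by linarith)
      (Pool.Agent.H82.LD.PG σ (4 - 7 * θ - δ))
      (Pool.Agent.H82.LD.hcorr_PG θ σ δ h1 (by linarith) h3)
    refine ⟨η, hη, fun U => ?_⟩
    obtain ⟨B, C, hC, hU⟩ := h U
    refine ⟨B, C, hC, fun x hx => ?_⟩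
    obtain ⟨Z, hZ, hZ2⟩ := hU x hx
    refine ⟨Z, hZ, fun A hA R hR1 hAR hRN => ?_⟩
    obtain ⟨X, hX0, hX1, hX2, hX3⟩ := hZ2 A hA R hR1 hAR hRN
    refine ⟨X, hX0, hX1, ?_, ?_⟩
    · intro d hd hdZ a ha haX hcop
      exact hX2 d (sub_mo x θ σ δ hd) hdZ a ha haX hcop
    · intro α
      refine le_trans ?_ (hX3 α)
      refine sum_le_sum_of_subset_of_nonneg ?_ fun _ _ _ => abs_nonneg _
      intro d hd
      rw [mem_filter] at hd ⊢
      exact ⟨sub_mo x θ σ δ hd.1, hd.2⟩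

end Pool.Agent.Results.MP_00e23e_nt.FewExceptionalResidues
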