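import Pool.Graph.R_pool_sql_team_seeded_3997aac3.Q198.CI.L6

/-!
# The level of distribution in Cramér's model with independence of order `κ`

In Cramér's random model every integer `n ≥ 3` belongs to the random set `A` with probability
`1 / log n`, and the events `n ∈ A` are independent. In the model with independence of order `κ`
only those sets `T` of events have to be independent whose number of elements is at most `κ n` for
all `n ∈ T`; so `A` has the right correlations of order `k = κ`, and nothing else is known.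

For a nondecreasing `κ ≥ 2` let `exponent κ` be the supremum of `m / (m + 1)`, `m = ⌊κ n / 2⌋`. It
is `m / (m + 1)` if `κ` is (from some point on) equal to `2 m` or `2 m + 1`, and `1` if `κ n → ∞`.
(1) In EVERY model with independence of order `κ` and for every `θ < exponent κ` almost surely the
    sum over `q ≤ N ^ θ` of the largest error in the residue classes modulo `q` (the class may
    depend on `q` and `N`) is at most `N ^ (1 - δ)`, for all large `N`.
(2) For individual moduli the exponent is sharp: let `0 < θ < 1`. In every model with independence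
    of order `κ` the elements of `A` are equidistributed in all the residue classes modulo each
    `q ≤ N ^ θ` (with probability tending to one, uniformly in `q`) if and only if
    `θ < exponent κ`.
-/

set_option autoImplicit false

namespace Pool.Agent.Results.MP_00e23e_nt.OrderOfIndependence

open MeasureTheory Filter Topology

open scoped ENNReal

/-- Cramér's model with independence of order `κ`: `E n` is the event that the integer `n` belongs
to the random set. For every finite set `T` of integers `n ≥ 3` with at most `κ n` elements for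
all `n ∈ T`, the probability that `T` is contained in the random set is `∏ 1 / log n`. -/
structure CramerModel {Ω : Type} [MeasurableSpace Ω] (P : Measure Ω) (κ : ℕ → ℕ)
    (E : ℕ → Set Ω) : Prop where
  meas : ∀ n, MeasurableSet (E n)
  indep : ∀ T : Finset ℕ, (∀ n ∈ T, 3 ≤ n ∧ T.card ≤ κ n) →
    P (⋂ n ∈ T, E n) = ENNReal.ofReal (∏ n ∈ T, 1 / Real.log n)

/-- the number of the elements `n ≤ N`, `n ≡ a (mod q)`, of the random set -/
noncomputable def count {Ω : Type} (E : ℕ → Set Ω) (ω : Ω) (N q a : ℕ) : ℕ :=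
  {n : ℕ | n ≤ N ∧ n ≡ a [MOD q] ∧ ω ∈ E n}.ncard

/-- the error in the residue class of `a` modulo `q` -/
noncomputable def err {Ω : Type} (E : ℕ → Set Ω) (ω : Ω) (N q a : ℕ) : ℝ :=
  |(count E ω N q a : ℝ) - (count E ω N 1 0 : ℝ) / q|

/-- for all the individual moduli `q ≤ N ^ θ` the random set is equidistributed in all the residue
classes modulo `q`, with probability tending to one, uniformly in `q` -/
def Uniform {Ω : Type} [MeasurableSpace Ω] (P : Measure Ω) (E : ℕ → Set Ω) (θ : ℝ) : Prop :=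
  ∀ η : ℝ, 0 < η → ∀ ε : ℝ≥0∞, 0 < ε → ∀ᶠ N : ℕ in atTop, ∀ q : ℕ, 0 < q → (q : ℝ) ≤ (N : ℝ) ^ θ →
    P {ω | ∃ a : ℕ, η * (N / (q * Real.log N)) ≤ err E ω N q a} ≤ ε

theorem count_eq {Ω : Type} (E : ℕ → Set Ω) (ω : Ω) (N q a : ℕ) :
    (count E ω N q a : ℝ) = Q198.CI.pia E N q (a % q) ω := rfl

theorem err_eq {Ω : Type} (E : ℕ → Set Ω) (ω : Ω) (N q a : ℕ) :
    err E ω N q a = Q198.CI.DE E N q (a % q) ω := rfl

theorem uniform_iff {Ω : Type} [MeasurableSpace Ω] (P : Measure Ω) (E : ℕ → Set Ω) (θ : ℝ) :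
    Uniform P E θ ↔ Q198.CI.UD P E θ := Iff.rfl

/-- the exponent: the supremum of `m / (m + 1)`, where `m = ⌊κ n / 2⌋` -/
noncomputable def exponent (κ : ℕ → ℕ) : ℝ := ⨆ n, ((κ n / 2 : ℕ) : ℝ) / ((κ n / 2 : ℕ) + 1)

theorem ratio_lt_one (m : ℕ) : (m : ℝ) / (m + 1) < 1 := by
  rw [div_lt_one (by positivity)]
  linarith

theorem bdd (κ : ℕ → ℕ) :
    BddAbove (Set.range fun n => ((κ n / 2 : ℕ) : ℝ) / ((κ n / 2 : ℕ) + 1)) := by
  refine ⟨1, ?_⟩
  rintro x ⟨n, rfl⟩
  exact (ratio_lt_one _).le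

theorem exists_of_lt {κ : ℕ → ℕ} (hmono : Monotone κ) (h2 : ∀ n, 2 ≤ κ n) {θ : ℝ}
    (hθ : θ < exponent κ) :
    ∃ m : ℕ, 0 < m ∧ θ < (m : ℝ) / (m + 1) ∧ ∀ᶠ n : ℕ in atTop, 2 * m ≤ κ n := by
  obtain ⟨n, hn⟩ := exists_lt_of_lt_ciSup hθ
  refine ⟨κ n / 2, Nat.div_pos (h2 n) (by norm_num), hn, ?_⟩
  filter_upwards [eventually_ge_atTop n] with i hi
  exact (Nat.mul_div_le (κ n) 2).trans (hmono hi)

theorem exists_of_le {κ : ℕ → ℕ} (h2 : ∀ n, 2 ≤ κ n) {θ : ℝ}
    (hθ : exponent κ ≤ θ) (hθ1 : θ < 1) :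
    ∃ m : ℕ, 0 < m ∧ (m : ℝ) / (m + 1) ≤ θ ∧ ∀ n : ℕ, κ n ≤ 2 * m + 1 := by
  have hle : ∀ n, ((κ n / 2 : ℕ) : ℝ) / ((κ n / 2 : ℕ) + 1) ≤ θ := fun n =>
    (le_ciSup (bdd κ) n).trans hθ
  -- `κ` is bounded
  obtain ⟨K, hK⟩ : ∃ K : ℕ, ∀ n, κ n / 2 ≤ K := by
    obtain ⟨K, hK⟩ := exists_nat_gt (θ / (1 - θ))
    refine ⟨K, fun n => ?_⟩
    have h1 := hle n
    rw [div_le_iff₀ (by positivity)] at h1
    have h2 : 0 < 1 - θ := by linarith
    rw [div_lt_iff₀ h2] at hK
    have h3 : ((κ n / 2 : ℕ) : ℝ) * (1 - θ) < K * (1 - θ) := by linarith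
    have h4 := lt_of_mul_lt_mul_right h3 h2.le
    exact_mod_cast h4.le
  classical
  set s : Set ℕ := Set.range fun n => κ n / 2 with hs
  have hne : s.Nonempty := ⟨_, 0, rfl⟩
  have hbd : BddAbove s := ⟨K, by rintro x ⟨n, rfl⟩; exact hK n⟩
  obtain ⟨n₀, hn₀⟩ := Nat.sSup_mem hne hbd
  have hn₀' : κ n₀ / 2 = sSup s := hn₀
  refine ⟨κ n₀ / 2, Nat.div_pos (h2 n₀) (by norm_num), hle n₀, fun n => ?_⟩
  have h5 : κ n / 2 ≤ κ n₀ / 2 := by
    rw [hn₀']
    exact le_csSup hbd ⟨n, rfl⟩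
  omega

theorem result (κ : ℕ → ℕ) (hmono : Monotone κ) (h2 : ∀ n, 2 ≤ κ n) :
    -- (1) the level of distribution, in the mean over the moduli, with the maximum inside
    (∀ (Ω : Type) [MeasurableSpace Ω] (P : Measure Ω) [IsProbabilityMeasure P]
      (E : ℕ → Set Ω), CramerModel P κ E → ∀ θ : ℝ, 0 < θ → θ < exponent κ →
      ∃ δ : ℝ, 0 < δ ∧ ∀ᵐ ω ∂P, ∀ᶠ N : ℕ in atTop, ∀ a : ℕ → ℕ,
        ∑ q ∈ Finset.Icc 1 ⌊(N : ℝ) ^ θ⌋₊, err E ω N q (a q) ≤ (N : ℝ) ^ (1 - δ)) ∧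
    -- (2) individual moduli
    (∀ θ : ℝ, 0 < θ → θ < 1 →
      ((∀ (Ω : Type) (_ : MeasurableSpace Ω) (P : Measure Ω) (_ : IsProbabilityMeasure P)
        (E : ℕ → Set Ω), CramerModel P κ E → Uniform P E θ) ↔ θ < exponent κ)) := by
  refine ⟨?_, ?_⟩
  · intro Ω _ P _ E hM θ hθ0 hθ
    obtain ⟨m, hm, hθm, hκ⟩ := exists_of_lt hmono h2 hθ
    exact Q198.CI.eh_level (κ := κ) (E := E) (P := P) ⟨hM.meas, hM.indep⟩ hm hκ hθ0 hθm
  · intro θ hθ0 hθ1
    constructor
    · intro h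
      by_contra hc
      rw [not_lt] at hc
      obtain ⟨m, hm, hmθ, hκ⟩ := exists_of_le h2 hc hθ1
      obtain ⟨Ω, mΩ, P, hP, E, hM, hE⟩ := Q198.CI.not_UD hm hmθ
      exact hE (h Ω mΩ P hP E ⟨hM.meas, fun T hT => hM.indep T fun n hn =>
        ⟨(hT n hn).1, (hT n hn).2.trans (hκ n)⟩⟩)
    · intro hθ Ω mΩ P hP E hM
      obtain ⟨m, hm, hθm, hκ⟩ := exists_of_lt hmono h2 hθ
      exact Q198.CI.UD_of_lt (κ := κ) ⟨hM.meas, hM.indep⟩ hm hκ hθ0 hθm

end Pool.Agent.Results.MP_00e23e_nt.OrderOfIndependence
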