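import Pool.Agent.H69.LB.NonAdm

/-!
# Square-root accurate correlations of all orders give exactly the level of distribution `1/2`

The problem asks whether some `α ≥ 1/2` is admissible for the primes. We determine which `α` can
be obtained from information about the correlations (the `k`-tuples conjecture with a square-root
error term), for sets `A` which behave like a random set with density `1 / log n`.

(1) PAIRS SUFFICE BELOW `1/2`. If the numbers of `n ≤ y` with `n + h ∈ A`, and with `n + h₁ ∈ A`
    and `n + h₂ ∈ A`, are the expected ones up to `O(x ^ (1/2 + ε))`, uniformly for
    `y, h, h₁, h₂ ≤ x`, then every `α < 1/2` is admissible for `A`.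
(2) ALL ORDERS TOGETHER GIVE NOTHING AT `1/2`. There is a set `A` such that
    * for every `k` all correlations of `k` shifts `≤ x`, even in every arithmetic progression to
      an arbitrary modulus, are the expected ones up to `O(x ^ (1/2 + ε))`, uniformly;
    * for fixed residues `a` (even uniformly for `|a| ≤ x ^ (1/2 - ε)`, with `a` depending on the
      modulus) `A` has the level of distribution `1` with a power saving;
    * but no `α ≥ 1/2` is admissible for `A`: the maximum over the residue classes, which stands
      inside the sum over the moduli, spoils it already at the primes just below `x ^ (1/2)`.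

The set in (2) is a random set in which the events `n ∈ A` are dependent: to each prime `p` belongs
a random sign, and for `p ^ 2 ≤ n < 4 * p ^ 2` the probability of `n ∈ A` is raised or lowered by a
quarter of `1 / log n` if `n ≡ -1/2 mod p`, and lowered or raised if `n ≡ -1/3 mod p`. So the two
classes compensate each other in all sums but those over progressions to a multiple of `p`.
-/

set_option autoImplicit false

namespace Pool.Agent.Results.MP_00e23e_nt.SquareRootBarrier

open Pool.Agent.H69.LB

theorem result :
    (∀ A : Set ℕ, Correlations A 1 → Correlations A 2 →
      ∀ α : ℝ, α < 1 / 2 → Admissible A α) ∧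
    ∃ A : Set ℕ, (∀ k : ℕ, CorrelationsAP A k) ∧ FixedResidues A ∧
      ∀ α : ℝ, 1 / 2 ≤ α → ¬ Admissible A α := by
  refine ⟨fun A h1 h2 α hα => admissible_of_correlations A h1 h2 hα, ?_⟩
  obtain ⟨S, hS1, hS2⟩ := exists_S
  have hlin : LinTest S := linTest_of (hS1 1)
  exact ⟨setA S, fun k => correlations fun ε hε => term_bound hε (hS1 k ε hε) (hS2 k ε hε),
    fixedResidues hlin, fun α hα => not_admissible hlin hα⟩

end Pool.Agent.Results.MP_00e23e_nt.SquareRootBarrier
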